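import Pool.Agent.Lib.MA71.Thin

set_option autoImplicit false

/-! Interior points of the Mandelbrot set accumulate at `-2`. -/

namespace Pool.Agent.Lib.MA71

theorem orb_cont (n : ℕ) : Continuous (fun c : ℂ => orb c n) := by
  induction n with
  | zero => exact continuous_const
  | succ n ih =>
    have e : (fun c : ℂ => orb c (n + 1)) = fun c => orb c n ^ 2 + c := by
      funext c; exact orb_succ c n
    rw [e]
    exact (ih.pow 2).add continuous_id

theorem iter_bound (C : ℝ) (hC : 0 ≤ C) (q : ℕ) : ∃ B : ℝ, 1 ≤ B ∧ ∀ c z : ℂ, ‖c‖ ≤ C →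
    ‖z‖ ≤ 1 → ∀ j, j ≤ q → ‖(fun z : ℂ => z ^ 2 + c)^[j] z‖ ≤ B := by
  induction q with
  | zero =>
    refine ⟨1, le_rfl, fun c z _ hz j hj => ?_⟩
    have : j = 0 := by omega
    subst this
    simpa using hz
  | succ q ih =>
    obtain ⟨B, hB, h⟩ := ih
    refine ⟨B ^ 2 + C, by nlinarith, fun c z hc hz j hj => ?_⟩
    rcases Nat.lt_or_ge j (q + 1) with h1 | h1
    · have := h c z hc hz j (by omega)
      nlinarith
    · have : j = q + 1 := by omega
      subst this
      rw [Function.iterate_succ_apply']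
      have h2 := h c z hc hz q le_rfl
      have h3 := norm_add_le (((fun z : ℂ => z ^ 2 + c)^[q] z) ^ 2) c
      rw [norm_pow] at h3
      have h4 := pow_le_pow_left₀ (norm_nonneg _) h2 2
      show ‖((fun z : ℂ => z ^ 2 + c)^[q] z) ^ 2 + c‖ ≤ _
      linarith

theorem iter_quad (C : ℝ) (hC : 0 ≤ C) (q : ℕ) : ∃ K : ℝ, 1 ≤ K ∧ ∀ c z : ℂ, ‖c‖ ≤ C →
    ‖z‖ ≤ 1 → ‖(fun z : ℂ => z ^ 2 + c)^[q + 1] z - (fun z : ℂ => z ^ 2 + c)^[q + 1] 0‖
      ≤ K * ‖z‖ ^ 2 := by
  induction q with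
  | zero =>
    refine ⟨1, le_rfl, fun c z _ _ => ?_⟩
    simp
  | succ q ih =>
    obtain ⟨K, hK, h⟩ := ih
    obtain ⟨B, hB, hb⟩ := iter_bound C hC (q + 1)
    refine ⟨K * (2 * B), by nlinarith, fun c z hc hz => ?_⟩
    rw [Function.iterate_succ_apply' _ (q + 1) z, Function.iterate_succ_apply' _ (q + 1) 0]
    set a := (fun z : ℂ => z ^ 2 + c)^[q + 1] z with ha
    set b := (fun z : ℂ => z ^ 2 + c)^[q + 1] 0 with hb'
    have h1 : ‖a‖ ≤ B := hb c z hc hz (q + 1) le_rfl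
    have h2 : ‖b‖ ≤ B := hb c 0 hc (by simp) (q + 1) le_rfl
    have h3 : ‖a - b‖ ≤ K * ‖z‖ ^ 2 := h c z hc hz
    have e : a ^ 2 + c - (b ^ 2 + c) = (a - b) * (a + b) := by ring
    show ‖a ^ 2 + c - (b ^ 2 + c)‖ ≤ _
    rw [e, norm_mul]
    have h4 : ‖a + b‖ ≤ 2 * B := by
      have := norm_add_le a b
      linarith
    calc ‖a - b‖ * ‖a + b‖ ≤ (K * ‖z‖ ^ 2) * (2 * B) :=
          mul_le_mul h3 h4 (norm_nonneg _) (by positivity)
      _ = _ := by ring

theorem centre_interior (c0 : ℂ) (q : ℕ) (h0 : orb c0 (q + 1) = 0) : c0 ∈ interior Man := by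
  have hC : 0 ≤ ‖c0‖ + 1 := by positivity
  obtain ⟨K, hK, hq⟩ := iter_quad _ hC q
  obtain ⟨B, _, hb⟩ := iter_bound _ hC (q + 1)
  have hK0 : 0 < K := by linarith
  set r : ℝ := 1 / (2 * K) with hr
  have hr0 : 0 < r := by positivity
  have hKr : K * r = 1 / 2 := by rw [hr]; field_simp
  have hr1 : r ≤ 1 := by nlinarith
  rw [mem_interior]
  refine ⟨{c : ℂ | ‖c‖ < ‖c0‖ + 1} ∩ {c : ℂ | ‖orb c (q + 1)‖ < r / 2}, ?_, ?_, ?_⟩
  · rintro c ⟨hc1, hc2⟩
    have hc1' : ‖c‖ ≤ ‖c0‖ + 1 := le_of_lt hc1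
    have hc2' : ‖orb c (q + 1)‖ < r / 2 := hc2
    have key : ∀ m : ℕ, ‖orb c ((q + 1) * m)‖ ≤ r := by
      intro m
      induction m with
      | zero => simp [orb_zero, hr0.le]
      | succ m ih =>
        have e : orb c ((q + 1) * (m + 1))
            = (fun z : ℂ => z ^ 2 + c)^[q + 1] (orb c ((q + 1) * m)) := by
          unfold orb
          rw [← Function.iterate_add_apply]
          congr 1
          ring
        have h1 := hq c (orb c ((q + 1) * m)) hc1' (ih.trans hr1)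
        rw [← e] at h1
        have h2 : ‖orb c ((q + 1) * (m + 1))‖
            ≤ ‖orb c ((q + 1) * (m + 1)) - orb c (q + 1)‖ + ‖orb c (q + 1)‖ := by
          have := norm_add_le (orb c ((q + 1) * (m + 1)) - orb c (q + 1)) (orb c (q + 1))
          simpa using this
        have h3 : ‖orb c ((q + 1) * m)‖ ^ 2 ≤ r ^ 2 := pow_le_pow_left₀ (norm_nonneg _) ih 2
        have h4 : K * ‖orb c ((q + 1) * m)‖ ^ 2 ≤ K * r ^ 2 :=
          mul_le_mul_of_nonneg_left h3 hK0.le
        have h5 : K * r ^ 2 = r / 2 := by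
          rw [pow_two, ← mul_assoc, hKr]; ring
        have h6 : ‖orb c ((q + 1) * (m + 1)) - orb c (q + 1)‖
            ≤ K * ‖orb c ((q + 1) * m)‖ ^ 2 := h1
        linarith
    show Bornology.IsBounded (Set.range (orb c))
    rw [isBounded_iff_forall_norm_le]
    refine ⟨B, ?_⟩
    rintro _ ⟨n, rfl⟩
    have e : orb c n = (fun z : ℂ => z ^ 2 + c)^[n % (q + 1)] (orb c ((q + 1) * (n / (q + 1)))) := by
      unfold orb
      rw [← Function.iterate_add_apply, Nat.mod_add_div]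
    rw [e]
    exact hb c _ hc1' ((key _).trans hr1) _ (Nat.mod_lt _ (Nat.succ_pos q)).le
  · exact (isOpen_lt continuous_norm continuous_const).inter
      (isOpen_lt (orb_cont (q + 1)).norm continuous_const)
  · refine ⟨by simp, ?_⟩
    show ‖orb c0 (q + 1)‖ < r / 2
    rw [h0, norm_zero]
    positivity

/-- The real critical orbit for the parameter `-2 + t`. -/
def rorb (t : ℝ) : ℕ → ℝ
  | 0 => 0
  | n + 1 => rorb t n ^ 2 + (-2 + t)

theorem rorb_eq (t : ℝ) (n : ℕ) : orb (-2 + (t : ℂ)) n = (rorb t n : ℂ) := by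
  induction n with
  | zero => simp [orb_zero, rorb]
  | succ n ih =>
    rw [orb_succ, ih, rorb]
    push_cast
    ring

theorem rorb_cont (n : ℕ) : Continuous (fun t : ℝ => rorb t n) := by
  induction n with
  | zero => exact continuous_const
  | succ n ih => exact (ih.pow 2).add (continuous_const.add continuous_id)

theorem rorb_tip (n : ℕ) : rorb 0 (n + 2) = 2 := by
  induction n with
  | zero => simp [rorb]; norm_num
  | succ n ih =>
    rw [show n + 1 + 2 = n + 2 + 1 from rfl, rorb, ih]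
    norm_num

theorem rorb_neg (t : ℝ) (h0 : 0 < t) (h1 : t ≤ 1) : ∃ n, rorb t (n + 2) ≤ 0 := by
  by_contra hc
  push Not at hc
  have key : ∀ n : ℕ, rorb t (n + 2) - 2 ≤ -((n : ℝ) + 2) * t := by
    intro n
    induction n with
    | zero =>
      simp only [rorb]
      push_cast
      nlinarith
    | succ n ih =>
      rw [show n + 1 + 2 = n + 2 + 1 from rfl, rorb]
      have hp := hc n
      have hn : (0 : ℝ) ≤ n := Nat.cast_nonneg n
      have h2 : rorb t (n + 2) - 2 ≤ -2 * t := by nlinarith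
      have h3 : rorb t (n + 2) * (rorb t (n + 2) - 2) ≤ 0 :=
        mul_nonpos_of_nonneg_of_nonpos hp.le (by linarith)
      push_cast
      nlinarith
  obtain ⟨n, hn⟩ := exists_nat_gt (2 / t)
  rw [div_lt_iff₀ h0] at hn
  have := key n
  have := hc n
  nlinarith

theorem centres (τ : ℝ) (hτ : 0 < τ) : ∃ c ∈ interior Man, ‖c + 2‖ < τ := by
  have h0 : 0 < min (τ / 2) 1 := by positivity
  obtain ⟨n, hn⟩ := rorb_neg _ h0 (min_le_right _ _)
  have hiv := intermediate_value_Icc' h0.le (rorb_cont (n + 2)).continuousOn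
  have hmem : (0 : ℝ) ∈ Set.Icc (rorb (min (τ / 2) 1) (n + 2)) (rorb 0 (n + 2)) := by
    rw [rorb_tip]
    exact ⟨hn, by norm_num⟩
  obtain ⟨t, ⟨ht0, ht1⟩, ht⟩ := hiv hmem
  have ht' : rorb t (n + 2) = 0 := ht
  refine ⟨-2 + (t : ℂ), centre_interior _ (n + 1) ?_, ?_⟩
  · rw [rorb_eq, ht']
    simp
  · have e : -2 + (t : ℂ) + 2 = t := by ring
    rw [e, Complex.norm_real, Real.norm_of_nonneg ht0]
    have := min_le_left (τ / 2) 1
    linarith

end Pool.Agent.Lib.MA71
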