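import Mathlib

set_option autoImplicit false

/-! Pumping with carries for words of digit tuples. -/

namespace Pool.Agent.Lib.MA71

variable {A : Type}

/-- Base `k` value of track `i` of a word, least significant digit first. -/
def val (k : ℕ) (d : A → Fin 6 → ℕ) (w : List A) (i : Fin 6) : ℕ :=
  Nat.ofDigits k (w.map (fun a => d a i))

theorem val_append (k : ℕ) (d : A → Fin 6 → ℕ) (u w : List A) (i : Fin 6) :
    val k d (u ++ w) i = val k d u i + k ^ u.length * val k d w i := by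
  unfold val
  rw [List.map_append, Nat.ofDigits_append, List.length_map]

theorem val_le (k : ℕ) (hk : 2 ≤ k) (d : A → Fin 6 → ℕ) (B : ℕ) (hB : ∀ a i, d a i ≤ B)
    (w : List A) (i : Fin 6) : val k d w i + B ≤ B * k ^ w.length := by
  induction w with
  | nil => simp [val]
  | cons a w ih =>
    have e : val k d (a :: w) i = d a i + k * val k d w i := by
      unfold val
      rw [List.map_cons, Nat.ofDigits_cons]
    have h1 := hB a i
    have h2 : k * (val k d w i + B) ≤ k * (B * k ^ w.length) := Nat.mul_le_mul_left k ih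
    have h3 : 2 * B ≤ k * B := Nat.mul_le_mul_right B hk
    rw [e, List.length_cons, pow_succ]
    nlinarith

/-- The three linear forms that pumping keeps fixed. -/
def gam (k : ℕ) (d : A → Fin 6 → ℕ) (w : List A) : ℤ × ℤ × ℤ :=
  ((val k d w 0 : ℤ) - val k d w 1 + 2 * val k d w 4, (val k d w 2 : ℤ) - val k d w 3,
    (val k d w 5 : ℤ))

theorem gam_append (k : ℕ) (d : A → Fin 6 → ℕ) (u w : List A) :
    gam k d (u ++ w) = gam k d u + ((k : ℤ) ^ u.length) • gam k d w := by
  unfold gam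
  simp only [val_append, Prod.smul_mk, Prod.mk_add_mk, smul_eq_mul, Prod.mk.injEq]
  push_cast
  refine ⟨by ring, by ring, by ring⟩

theorem carry (a g x K G : ℤ) (hK : 0 < K) (h : x = a + K * g) (ha : |a| ≤ G * K)
    (hx : |x| ≤ K) : g ∈ Finset.Icc (-(G + 1)) (G + 1) := by
  rw [Finset.mem_Icc]
  obtain ⟨a1, a2⟩ := abs_le.mp ha
  obtain ⟨x1, x2⟩ := abs_le.mp hx
  constructor
  · have : K * (-(G + 1)) ≤ K * g := by nlinarith
    exact le_of_mul_le_mul_left this hK
  · have : K * g ≤ K * (G + 1) := by nlinarith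
    exact le_of_mul_le_mul_left this hK

theorem gam_bound (k : ℕ) (d : A → Fin 6 → ℕ) (u : List A) (B K : ℤ)
    (hv : ∀ i, (val k d u i : ℤ) ≤ B * K) :
    |(gam k d u).1| ≤ 3 * B * K ∧ |(gam k d u).2.1| ≤ 3 * B * K ∧
      |(gam k d u).2.2| ≤ 3 * B * K := by
  have hv0 : ∀ i, (0 : ℤ) ≤ (val k d u i : ℤ) := fun i => Int.natCast_nonneg _
  have e : 3 * B * K = 3 * (B * K) := by ring
  have a0 := hv 0; have a1 := hv 1; have a2 := hv 2; have a3 := hv 3; have a4 := hv 4
  have a5 := hv 5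
  have b0 := hv0 0; have b1 := hv0 1; have b2 := hv0 2; have b3 := hv0 3; have b4 := hv0 4
  have b5 := hv0 5
  rw [e]
  simp only [gam, abs_le]
  refine ⟨⟨?_, ?_⟩, ⟨?_, ?_⟩, ⟨?_, ?_⟩⟩ <;> linarith

/-- The word `seg` repeated `n` times, followed by `hi`. -/
def rep (seg hi : List A) : ℕ → List A
  | 0 => hi
  | n + 1 => seg ++ rep seg hi n

theorem pump (k : ℕ) (hk : 2 ≤ k) [Finite A] (d : A → Fin 6 → ℕ) (L : Language A)
    (hL : L.IsRegular) : ∃ C : ℕ, ∀ w ∈ L, ∀ T : ℕ, 1 ≤ T → |(gam k d w).1| ≤ T →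
      |(gam k d w).2.1| ≤ T → |(gam k d w).2.2| ≤ T →
      (val k d w 4 ≤ C * T ∨ ∀ n : ℕ, ∃ w' ∈ L, gam k d w' = gam k d w ∧ n ≤ val k d w' 4) := by
  classical
  obtain ⟨σ, hσ, D, hD⟩ := hL
  obtain ⟨B, hB⟩ : ∃ B : ℕ, ∀ a i, d a i ≤ B := by
    obtain ⟨B, hB⟩ := (Set.finite_range (fun p : A × Fin 6 => d p.1 p.2)).bddAbove
    exact ⟨B, fun a i => hB ⟨(a, i), rfl⟩⟩
  obtain ⟨I, hI⟩ : ∃ I : Finset ℤ, I = Finset.Icc (-(3 * (B : ℤ) + 1)) (3 * (B : ℤ) + 1) :=
    ⟨_, rfl⟩
  obtain ⟨S, hS⟩ : ∃ S : Finset (σ × ℤ × ℤ × ℤ), S = Finset.univ ×ˢ (I ×ˢ (I ×ˢ I)) := ⟨_, rfl⟩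
  obtain ⟨N, hN⟩ : ∃ N : ℕ, N = S.card := ⟨_, rfl⟩
  refine ⟨B * k ^ (N + 1), fun w hw T hT h1 h2 h3 => ?_⟩
  by_cases hbig : val k d w 4 ≤ B * k ^ (N + 1) * T
  · exact Or.inl hbig
  right
  push Not at hbig
  obtain ⟨m, hm⟩ : ∃ m : ℕ, m = Nat.log k T + 1 := ⟨_, rfl⟩
  have hk1 : 1 < k := hk
  have hm1 : T < k ^ m := by
    rw [hm]
    exact Nat.lt_pow_succ_log_self hk1 T
  have hm2 : k ^ m ≤ k * T := by
    rw [hm, pow_succ, mul_comm]
    exact Nat.mul_le_mul_left k (Nat.pow_log_le_self k (by omega))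
  have hpow : ∀ j, j ≤ m + N → B * k ^ j < val k d w 4 := by
    intro j hj
    have a1 : k ^ j ≤ k ^ (m + N) := Nat.pow_le_pow_right (by omega) hj
    have a2 : k ^ (m + N) ≤ k ^ (N + 1) * T := by
      calc k ^ (m + N) = k ^ m * k ^ N := pow_add _ _ _
        _ ≤ (k * T) * k ^ N := Nat.mul_le_mul_right (k ^ N) hm2
        _ = k ^ (N + 1) * T := by ring
    have a3 : B * k ^ j ≤ B * (k ^ (N + 1) * T) := Nat.mul_le_mul_left B (a1.trans a2)
    rw [← mul_assoc] at a3
    omega
  have hlen : m + N ≤ w.length := by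
    by_contra hc
    have a1 := hpow w.length (by omega)
    have a2 := val_le k hk d B hB w 4
    omega
  have htake : ∀ j, j ≤ m + N → (w.take j).length = j := by
    intro j hj
    rw [List.length_take]
    omega
  have hsplit : ∀ j, j ≤ m + N →
      gam k d w = gam k d (w.take j) + ((k : ℤ) ^ j) • gam k d (w.drop j) := by
    intro j hj
    have := gam_append k d (w.take j) (w.drop j)
    rwa [List.take_append_drop, htake j hj] at this
  have hmaps : ∀ j ∈ Finset.range (N + 1),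
      (D.eval (w.take (m + j)), gam k d (w.drop (m + j))) ∈ S := by
    intro j hj
    have hj' : m + j ≤ m + N := by
      have := Finset.mem_range.mp hj
      omega
    have hs := hsplit _ hj'
    have hK : (0 : ℤ) < (k : ℤ) ^ (m + j) := by positivity
    have hTK : (T : ℤ) ≤ (k : ℤ) ^ (m + j) := by
      have a1 : k ^ m ≤ k ^ (m + j) := Nat.pow_le_pow_right (by omega) (by omega)
      exact_mod_cast (hm1.le.trans a1)
    have hv : ∀ i, (val k d (w.take (m + j)) i : ℤ) ≤ (B : ℤ) * (k : ℤ) ^ (m + j) := by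
      intro i
      have a1 := val_le k hk d B hB (w.take (m + j)) i
      rw [htake _ hj'] at a1
      have a2 : val k d (w.take (m + j)) i ≤ B * k ^ (m + j) := by omega
      exact_mod_cast a2
    obtain ⟨g1, g2, g3⟩ := gam_bound k d (w.take (m + j)) _ _ hv
    have e1 := congrArg (fun x : ℤ × ℤ × ℤ => x.1) hs
    have e2 := congrArg (fun x : ℤ × ℤ × ℤ => x.2.1) hs
    have e3 := congrArg (fun x : ℤ × ℤ × ℤ => x.2.2) hs
    simp only [Prod.fst_add, Prod.snd_add, Prod.smul_fst, Prod.smul_snd, smul_eq_mul] at e1 e2 e3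
    rw [hS, Finset.mem_product, Finset.mem_product, Finset.mem_product, hI]
    exact ⟨Finset.mem_univ _, carry _ _ _ _ (3 * (B : ℤ)) hK e1 g1 (h1.trans hTK),
      carry _ _ _ _ (3 * (B : ℤ)) hK e2 g2 (h2.trans hTK),
      carry _ _ _ _ (3 * (B : ℤ)) hK e3 g3 (h3.trans hTK)⟩
  obtain ⟨i, j, hij, hj, heq⟩ : ∃ i j, i < j ∧ j ≤ N ∧
      (D.eval (w.take (m + i)), gam k d (w.drop (m + i)))
        = (D.eval (w.take (m + j)), gam k d (w.drop (m + j))) := by
    obtain ⟨x, hx, y, hy, hne, he⟩ := Finset.exists_ne_map_eq_of_card_lt_of_maps_to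
      (s := Finset.range (N + 1)) (t := S) (by rw [Finset.card_range]; omega) hmaps
    have hx' := Finset.mem_range.mp hx
    have hy' := Finset.mem_range.mp hy
    rcases Nat.lt_or_gt_of_ne hne with h | h
    · exact ⟨x, y, h, by omega, he⟩
    · exact ⟨y, x, h, by omega, he.symm⟩
  obtain ⟨hs, hg⟩ := Prod.mk.inj heq
  set lo := w.take (m + i) with hlo
  set hi := w.drop (m + j) with hhi
  set seg := (w.drop (m + i)).take (j - i) with hseg
  have s1 : seg ++ hi = w.drop (m + i) := by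
    have e : hi = (w.drop (m + i)).drop (j - i) := by
      rw [List.drop_drop, hhi]
      congr 1
      omega
    rw [e, hseg, List.take_append_drop]
  have s2 : lo ++ seg = w.take (m + j) := by
    have e : m + j = (m + i) + (j - i) := by omega
    rw [e, List.take_add]
  have s3 : 1 ≤ seg.length := by
    rw [hseg, List.length_take, List.length_drop]
    omega
  have s4 : D.evalFrom (D.eval lo) seg = D.eval lo := by
    have e : D.eval (lo ++ seg) = D.evalFrom (D.eval lo) seg := D.evalFrom_of_append _ _ _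
    rw [← e, s2, ← hs]
  have s5 : 1 ≤ val k d hi 4 := by
    by_contra hc
    have a0 : val k d hi 4 = 0 := by omega
    have a1 := val_append k d (w.take (m + j)) hi 4
    rw [hhi, List.take_append_drop, ← hhi, a0] at a1
    have a2 := val_le k hk d B hB (w.take (m + j)) 4
    rw [htake _ (by omega)] at a2
    have a3 := hpow (m + j) (by omega)
    omega
  have r1 : ∀ n, gam k d (rep seg hi n) = gam k d hi := by
    intro n
    induction n with
    | zero => rfl
    | succ n ih => rw [rep, gam_append, ih, ← gam_append, s1, hg]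
  have r2 : ∀ n, D.evalFrom (D.eval lo) (rep seg hi n) = D.evalFrom (D.eval lo) hi := by
    intro n
    induction n with
    | zero => rfl
    | succ n ih => rw [rep, D.evalFrom_of_append, s4, ih]
  have r3 : ∀ n, n + 1 ≤ val k d (rep seg hi n) 4 := by
    intro n
    induction n with
    | zero => exact s5
    | succ n ih =>
      rw [rep, val_append]
      have a1 : 2 ≤ k ^ seg.length := hk.trans (Nat.le_self_pow (by omega) k)
      nlinarith [Nat.mul_le_mul_right (val k d (rep seg hi n) 4) a1]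
  have hw' : w = lo ++ (seg ++ hi) := by rw [s1, hlo, List.take_append_drop]
  intro n
  refine ⟨lo ++ rep seg hi n, ?_, ?_, ?_⟩
  · rw [← hD, DFA.mem_accepts] at hw ⊢
    have e1 : D.eval (lo ++ rep seg hi n) = D.evalFrom (D.eval lo) (rep seg hi n) :=
      D.evalFrom_of_append _ _ _
    have e2 : D.eval (lo ++ (seg ++ hi)) = D.evalFrom (D.eval lo) (seg ++ hi) :=
      D.evalFrom_of_append _ _ _
    rw [← hw', D.evalFrom_of_append, s4] at e2
    rw [e1, r2, ← e2]
    exact hw
  · rw [gam_append, r1, ← hg, ← gam_append, hlo, List.take_append_drop]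
  · rw [val_append]
    have a1 : 1 ≤ k ^ lo.length := Nat.one_le_pow _ _ (by omega)
    have a2 := r3 n
    nlinarith [Nat.mul_le_mul_right (val k d (rep seg hi n) 4) a1]

end Pool.Agent.Lib.MA71
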