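import Pool.Agent.Lib.MA71.Centre
import Pool.Agent.Lib.MA71.Pump

set_option autoImplicit false

/-! A regular family of discs inside the Mandelbrot set misses a ball round `-2`. -/

namespace Pool.Agent.Lib.MA71

theorem centre_eq (a b c d e : ℝ) (he : 0 < e + 1) :
    Complex.mk ((a - b) / (e + 1)) ((c - d) / (e + 1))
      = -2 + ((1 / (e + 1) : ℝ) : ℂ) * Complex.mk (a - b + 2 * e + 2) (c - d) := by
  apply Complex.ext
  · simp only [Complex.add_re, Complex.neg_re, Complex.re_ofNat, Complex.mul_re,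
      Complex.ofReal_re, Complex.ofReal_im]
    field_simp
    ring
  · simp only [Complex.add_im, Complex.neg_im, Complex.im_ofNat, Complex.mul_im,
      Complex.ofReal_re, Complex.ofReal_im]
    field_simp
    ring

theorem main {A : Type} (k : ℕ) (hk : 2 ≤ k) [Finite A] (d : A → Fin 6 → ℕ) (L : Language A)
    (hL : L.IsRegular) (D : List A → Set ℂ)
    (hD : ∀ w, D w = Metric.ball
      (Complex.mk (((val k d w 0 : ℝ) - val k d w 1) / (val k d w 4 + 1))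
        (((val k d w 2 : ℝ) - val k d w 3) / (val k d w 4 + 1)))
      (((val k d w 5 : ℝ) + 1) / (val k d w 4 + 1)))
    (hM : ∀ w ∈ L, D w ⊆ Man) :
    ∃ τ : ℝ, 0 < τ ∧ ∀ w ∈ L, ∀ x ∈ D w, τ ≤ ‖x + 2‖ := by
  obtain ⟨C, hC⟩ := pump k hk d L hL
  have hform : ∀ w, D w = Metric.ball
      (-2 + ((1 / ((val k d w 4 : ℝ) + 1) : ℝ) : ℂ) *
        Complex.mk (((gam k d w).1 : ℝ) + 2) ((gam k d w).2.1 : ℝ))
      ((((gam k d w).2.2 : ℝ) + 1) / (val k d w 4 + 1)) := by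
    intro w
    rw [hD, centre_eq _ _ _ _ _ (by positivity)]
    simp only [gam]
    push_cast
    rfl
  have hC0 : (0 : ℝ) ≤ C := Nat.cast_nonneg C
  obtain ⟨τ, hτ, hmiss⟩ := miss (1 / (3 * ((C : ℝ) + 1))) (by positivity)
  refine ⟨τ, hτ, fun w hw x hx => ?_⟩
  obtain ⟨ζ, hζ⟩ : ∃ ζ : ℂ, ζ = Complex.mk (((gam k d w).1 : ℝ) + 2) ((gam k d w).2.1 : ℝ) :=
    ⟨_, rfl⟩
  obtain ⟨R, hR⟩ : ∃ R : ℝ, R = ((gam k d w).2.2 : ℝ) + 1 := ⟨_, rfl⟩
  have hg3 : (0 : ℤ) ≤ (gam k d w).2.2 := Int.natCast_nonneg _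
  have hg3' : (0 : ℝ) ≤ ((gam k d w).2.2 : ℝ) := by exact_mod_cast hg3
  have hR1 : 1 ≤ R := by rw [hR]; linarith
  obtain ⟨T, hT⟩ : ∃ T : ℕ,
      T = (gam k d w).1.natAbs + (gam k d w).2.1.natAbs + (gam k d w).2.2.natAbs + 1 := ⟨_, rfl⟩
  have hTz : (T : ℤ) = |(gam k d w).1| + |(gam k d w).2.1| + |(gam k d w).2.2| + 1 := by
    rw [hT]
    push_cast
    rfl
  have p1 := abs_nonneg (gam k d w).1
  have p2 := abs_nonneg (gam k d w).2.1
  have p3 := abs_nonneg (gam k d w).2.2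
  have hnorm : ∀ e : ℝ, 0 < e → ‖((1 / e : ℝ) : ℂ) * ζ‖ = ‖ζ‖ / e := by
    intro e he
    rw [norm_mul, Complex.norm_real, Real.norm_of_nonneg (by positivity)]
    ring
  rcases hC w hw T (by omega) (by linarith) (by linarith) (by linarith) with hsmall | hbig
  · have hE : (0 : ℝ) < (val k d w 4 : ℝ) + 1 := by positivity
    have hsub := hM w hw
    rw [hform, ← hζ, ← hR] at hsub hx
    refine hmiss _ _ ?_ hsub x hx
    rw [hnorm _ hE, ← add_div, div_le_div_iff₀ (by positivity) hE]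
    have hTr : (T : ℝ) = |((gam k d w).1 : ℝ)| + |((gam k d w).2.1 : ℝ)|
        + |((gam k d w).2.2 : ℝ)| + 1 := by exact_mod_cast hTz
    have q1 : |((gam k d w).1 : ℝ)| ≤ ‖ζ‖ + 2 := by
      have a1 := Complex.abs_re_le_norm ζ
      have a2 : ζ.re = ((gam k d w).1 : ℝ) + 2 := by rw [hζ]
      rw [a2] at a1
      obtain ⟨b1, b2⟩ := abs_le.mp a1
      rw [abs_le]
      constructor <;> linarith
    have q2 : |((gam k d w).2.1 : ℝ)| ≤ ‖ζ‖ := by
      have a1 := Complex.abs_im_le_norm ζ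
      have a2 : ζ.im = ((gam k d w).2.1 : ℝ) := by rw [hζ]
      rwa [a2] at a1
    rw [abs_of_nonneg hg3'] at hTr
    have q3 : (T : ℝ) ≤ 3 * (‖ζ‖ + R) := by
      have := norm_nonneg ζ
      linarith
    have q4 : (val k d w 4 : ℝ) ≤ C * T := by exact_mod_cast hsmall
    have q5 : (1 : ℝ) ≤ T := by
      have : 1 ≤ T := by omega
      exact_mod_cast this
    have q6 : ((C : ℝ) + 1) * T ≤ ((C : ℝ) + 1) * (3 * (‖ζ‖ + R)) :=
      mul_le_mul_of_nonneg_left q3 (by positivity)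
    nlinarith
  · exfalso
    have hR0 : 0 < R := by linarith
    obtain ⟨s, hs, hthin⟩ := disc_thin (‖ζ‖ / R) (by positivity)
    obtain ⟨n, hn⟩ := exists_nat_gt (R / s)
    obtain ⟨w', hw', hg, hn'⟩ := hbig n
    have hE : (0 : ℝ) < (val k d w' 4 : ℝ) + 1 := by positivity
    have hsub := hM w' hw'
    rw [hform, hg, ← hζ, ← hR] at hsub
    refine hthin _ _ (by positivity) ?_ ?_ hsub
    · rw [div_lt_iff₀ hs] at hn
      rw [div_le_iff₀ hE]
      have : (n : ℝ) ≤ val k d w' 4 := by exact_mod_cast hn'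
      nlinarith
    · rw [hnorm _ hE]
      apply le_of_eq
      field_simp

theorem final (U : Set ℂ) (τ : ℝ) (hτ : 0 < τ) (h : ∀ x ∈ U, τ ≤ ‖x + 2‖) :
    ∃ c ∈ interior Man, c ∉ closure U := by
  obtain ⟨c, hc, hcτ⟩ := centres τ hτ
  refine ⟨c, hc, fun hcl => ?_⟩
  have hclosed : IsClosed {x : ℂ | τ ≤ ‖x + 2‖} :=
    isClosed_le continuous_const (continuous_id.add continuous_const).norm
  have : τ ≤ ‖c + 2‖ := closure_minimal h hclosed hcl
  linarith

end Pool.Agent.Lib.MA71
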