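import Mathlib

set_option autoImplicit false

/-! The Mandelbrot set is thinner than every sector at the tip `-2`. -/

namespace Pool.Agent.Lib.MA71

/-- The critical orbit of `z ^ 2 + c`. -/
noncomputable def orb (c : ℂ) (n : ℕ) : ℂ := (fun z : ℂ => z ^ 2 + c)^[n] 0

/-- The Mandelbrot set. -/
def Man : Set ℂ := {c : ℂ | Bornology.IsBounded (Set.range (orb c))}

theorem orb_zero (c : ℂ) : orb c 0 = 0 := rfl

theorem orb_succ (c : ℂ) (n : ℕ) : orb c (n + 1) = orb c n ^ 2 + c := by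
  unfold orb
  rw [Function.iterate_succ_apply']

/-- Elliptic height over the segment from `-2` to `2`. -/
noncomputable def psi (z : ℂ) : ℝ := ‖z - 2‖ + ‖z + 2‖ - 4

theorem psi_step (z t : ℂ) : 4 * psi z - 2 * ‖t‖ ≤ psi (z ^ 2 + (-2 + t)) := by
  have h1 : ‖z - 2‖ * ‖z + 2‖ ≤ ‖z ^ 2 + (-2 + t) - 2‖ + ‖t‖ := by
    rw [← norm_mul]
    have e : (z - 2) * (z + 2) = (z ^ 2 + (-2 + t) - 2) - t := by ring
    rw [e]
    exact norm_sub_le _ _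
  have h2 : ‖z‖ ^ 2 ≤ ‖z ^ 2 + (-2 + t) + 2‖ + ‖t‖ := by
    rw [← norm_pow]
    have e : z ^ 2 = (z ^ 2 + (-2 + t) + 2) - t := by ring
    calc ‖z ^ 2‖ = ‖(z ^ 2 + (-2 + t) + 2) - t‖ := by rw [← e]
      _ ≤ _ := norm_sub_le _ _
  have h3 : ‖z - 2‖ ^ 2 + ‖z + 2‖ ^ 2 = 2 * ‖z‖ ^ 2 + 8 := by
    simp only [Complex.sq_norm, Complex.normSq_apply, Complex.sub_re, Complex.add_re,
      Complex.sub_im, Complex.add_im, Complex.re_ofNat, Complex.im_ofNat]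
    ring
  unfold psi
  nlinarith [sq_nonneg (‖z - 2‖ + ‖z + 2‖ - 4)]

theorem psi_le (z : ℂ) : psi z ≤ 2 * ‖z‖ := by
  have h1 : ‖z - 2‖ ≤ ‖z‖ + 2 := by
    have := norm_sub_le z 2
    simpa using this
  have h2 : ‖z + 2‖ ≤ ‖z‖ + 2 := by
    have := norm_add_le z 2
    simpa using this
  unfold psi
  linarith

theorem escape (t : ℂ) (ht : t ≠ 0) (n : ℕ) (h : ‖t‖ ≤ psi (orb (-2 + t) n)) :
    -2 + t ∉ Man := by
  intro hM
  have hpos : 0 < ‖t‖ := norm_pos_iff.mpr ht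
  have key : ∀ m : ℕ, ((m : ℝ) + 1) * ‖t‖ ≤ psi (orb (-2 + t) (n + m)) := by
    intro m
    induction m with
    | zero => simpa using h
    | succ m ih =>
      have := psi_step (orb (-2 + t) (n + m)) t
      rw [← orb_succ] at this
      have hm : (0 : ℝ) ≤ m := Nat.cast_nonneg m
      have e : n + (m + 1) = n + m + 1 := rfl
      rw [e]
      push_cast
      nlinarith
  have hM' : Bornology.IsBounded (Set.range (orb (-2 + t))) := hM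
  obtain ⟨C, hC⟩ := (isBounded_iff_forall_norm_le.mp hM')
  obtain ⟨m, hm⟩ := exists_nat_gt (2 * C / ‖t‖)
  have h1 := key m
  have h2 := psi_le (orb (-2 + t) (n + m))
  have h3 := hC _ ⟨n + m, rfl⟩
  rw [div_lt_iff₀ hpos] at hm
  nlinarith

theorem expand (n : ℕ) : ∃ A B : ℝ, (n : ℝ) + 1 ≤ A ∧ 0 ≤ B ∧
    ∀ t : ℂ, ‖t‖ ≤ 1 → ‖orb (-2 + t) (n + 2) - 2 + (A : ℂ) * t‖ ≤ B * ‖t‖ ^ 2 := by
  induction n with
  | zero =>
    refine ⟨3, 1, by norm_num, by norm_num, fun t _ => ?_⟩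
    have e : orb (-2 + t) (0 + 2) - 2 + ((3 : ℝ) : ℂ) * t = t ^ 2 := by
      rw [show (0 + 2 : ℕ) = 0 + 1 + 1 from rfl, orb_succ, orb_succ, orb_zero]
      push_cast
      ring
    rw [e, norm_pow, one_mul]
  | succ n ih =>
    obtain ⟨A, B, hA, hB, h⟩ := ih
    have hn : (0 : ℝ) ≤ n := Nat.cast_nonneg n
    refine ⟨4 * A - 1, 4 * B + (A + B) ^ 2, by push_cast; linarith, by positivity,
      fun t ht => ?_⟩
    have hr := h t ht
    set z := orb (-2 + t) (n + 2) with hz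
    have e : orb (-2 + t) (n + 1 + 2) - 2 + ((4 * A - 1 : ℝ) : ℂ) * t
        = 4 * (z - 2 + (A : ℂ) * t) + (z - 2) ^ 2 := by
      rw [show n + 1 + 2 = n + 2 + 1 from rfl, orb_succ, ← hz]
      push_cast
      ring
    have h0 : 0 ≤ ‖t‖ := norm_nonneg t
    have he : ‖z - 2‖ ≤ (A + B) * ‖t‖ := by
      have e2 : z - 2 = (z - 2 + (A : ℂ) * t) - (A : ℂ) * t := by ring
      have h1 : ‖z - 2‖ ≤ ‖z - 2 + (A : ℂ) * t‖ + ‖(A : ℂ) * t‖ := by
        calc ‖z - 2‖ = ‖(z - 2 + (A : ℂ) * t) - (A : ℂ) * t‖ := by rw [← e2]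
          _ ≤ _ := norm_sub_le _ _
      have h2 : ‖(A : ℂ) * t‖ = A * ‖t‖ := by
        rw [norm_mul, Complex.norm_real, Real.norm_of_nonneg (by linarith)]
      have h3 : B * ‖t‖ ^ 2 ≤ B * ‖t‖ := by
        apply mul_le_mul_of_nonneg_left _ hB
        nlinarith
      nlinarith
    rw [e]
    have h4 : ‖4 * (z - 2 + (A : ℂ) * t) + (z - 2) ^ 2‖
        ≤ 4 * ‖z - 2 + (A : ℂ) * t‖ + ‖z - 2‖ ^ 2 := by
      refine (norm_add_le _ _).trans ?_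
      rw [norm_mul, norm_pow]
      simp
    have h5 : ‖z - 2‖ ^ 2 ≤ ((A + B) * ‖t‖) ^ 2 := pow_le_pow_left₀ (norm_nonneg _) he 2
    nlinarith

theorem thin (κ : ℝ) (hκ : 0 < κ) : ∃ s : ℝ, 0 < s ∧ ∀ t : ℂ, t ≠ 0 → ‖t‖ ≤ s →
    κ * ‖t‖ ≤ ‖t‖ - t.re → -2 + t ∉ Man := by
  obtain ⟨n, hn⟩ := exists_nat_gt (2 / κ)
  obtain ⟨A, B, hA, hB, h⟩ := expand n
  have hn0 : (0 : ℝ) ≤ n := Nat.cast_nonneg n
  refine ⟨1 / (2 * B + 1), by positivity, fun t ht hs hk => ?_⟩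
  have hB1 : 0 < 2 * B + 1 := by positivity
  rw [le_div_iff₀ hB1] at hs
  have h0 : 0 ≤ ‖t‖ := norm_nonneg t
  have ht1 : ‖t‖ ≤ 1 := by nlinarith
  have hr := h t ht1
  apply escape t ht (n + 2)
  set z := orb (-2 + t) (n + 2) with hz
  set r := z - 2 + (A : ℂ) * t with hrdef
  have h2 : ‖(A : ℂ) * t‖ = A * ‖t‖ := by
    rw [norm_mul, Complex.norm_real, Real.norm_of_nonneg (by linarith)]
  have h3 : A * ‖t‖ ≤ ‖z - 2‖ + ‖r‖ := by
    have e : (A : ℂ) * t = r - (z - 2) := by rw [hrdef]; ring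
    rw [← h2, e]
    have := norm_sub_le r (z - 2)
    linarith
  have h4 : 4 - A * t.re - ‖r‖ ≤ ‖z + 2‖ := by
    have e : (z + 2).re = 4 - A * t.re + r.re := by
      rw [hrdef]
      simp
      ring
    have h5 := Complex.re_le_norm (z + 2)
    have h6 := (abs_le.mp (Complex.abs_re_le_norm r)).1
    linarith
  rw [div_lt_iff₀ hκ] at hn
  have h7 : 2 ≤ A * κ := by nlinarith
  have h8 : A * (κ * ‖t‖) ≤ A * (‖t‖ - t.re) := mul_le_mul_of_nonneg_left hk (by linarith)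
  have h9 : 2 * ‖t‖ ≤ A * κ * ‖t‖ := mul_le_mul_of_nonneg_right h7 h0
  have h10 : 2 * (B * ‖t‖ ^ 2) ≤ ‖t‖ := by nlinarith
  unfold psi
  nlinarith

/-- A small disc seen from `-2` under a fixed angle is not inside the Mandelbrot set. -/
theorem disc_thin (H : ℝ) (hH : 0 ≤ H) : ∃ s : ℝ, 0 < s ∧ ∀ (p : ℂ) (ρ : ℝ), 0 < ρ → ρ ≤ s →
    ‖p‖ ≤ H * ρ → ¬ (Metric.ball (-2 + p) ρ ⊆ Man) := by
  obtain ⟨s, hs, h⟩ := thin (1 / (8 * (H + 1) ^ 2)) (by positivity)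
  refine ⟨s / (H + 1), by positivity, fun p ρ hρ hρs hp hsub => ?_⟩
  have hH1 : 0 < H + 1 := by linarith
  rw [le_div_iff₀ hH1] at hρs
  obtain ⟨y, hy1, hy2⟩ : ∃ y : ℝ, |y| = ρ / 2 ∧ (ρ / 2) ^ 2 ≤ (p.im + y) ^ 2 := by
    rcases le_total 0 p.im with h1 | h1
    · exact ⟨ρ / 2, abs_of_pos (by linarith), by nlinarith⟩
    · exact ⟨-(ρ / 2), by rw [abs_neg]; exact abs_of_pos (by linarith), by nlinarith⟩
  set q : ℂ := p + (y : ℂ) * Complex.I with hq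
  have hyn : ‖(y : ℂ) * Complex.I‖ = ρ / 2 := by
    rw [norm_mul, Complex.norm_I, mul_one, Complex.norm_real, Real.norm_eq_abs, hy1]
  have hqim : q.im = p.im + y := by rw [hq]; simp
  have hqn : ‖q‖ ≤ (H + 1) * ρ := by
    have := norm_add_le p ((y : ℂ) * Complex.I)
    rw [hyn] at this
    nlinarith
  have hsq : ‖q‖ ^ 2 = q.re ^ 2 + q.im ^ 2 := by
    rw [Complex.sq_norm, Complex.normSq_apply]; ring
  have hq0 : q ≠ 0 := by
    intro h0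
    have : p.im + y = 0 := by rw [← hqim, h0]; simp
    rw [this] at hy2
    nlinarith
  have hqpos : 0 < ‖q‖ := norm_pos_iff.mpr hq0
  have hre := Complex.re_le_norm q
  have hk : 1 / (8 * (H + 1) ^ 2) * ‖q‖ ≤ ‖q‖ - q.re := by
    rw [div_mul_eq_mul_div, one_mul, div_le_iff₀ (by positivity)]
    have a1 : (ρ / 2) ^ 2 ≤ (‖q‖ - q.re) * (2 * ‖q‖) := by
      rw [← hqim] at hy2
      nlinarith
    have a2 : ‖q‖ ^ 2 ≤ ((H + 1) * ρ) ^ 2 := pow_le_pow_left₀ hqpos.le hqn 2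
    have a3 : (H + 1) ^ 2 * (ρ / 2) ^ 2 ≤ (H + 1) ^ 2 * ((‖q‖ - q.re) * (2 * ‖q‖)) :=
      mul_le_mul_of_nonneg_left a1 (by positivity)
    have a4 : ‖q‖ * ‖q‖ ≤ ((‖q‖ - q.re) * (8 * (H + 1) ^ 2)) * ‖q‖ := by nlinarith
    exact le_of_mul_le_mul_right a4 hqpos
  apply h q hq0 (by nlinarith) hk
  apply hsub
  rw [Metric.mem_ball, dist_eq_norm]
  have e : -2 + q - (-2 + p) = (y : ℂ) * Complex.I := by rw [hq]; ring
  rw [e, hyn]
  linarith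

/-- Discs inside the Mandelbrot set whose size seen from `-2` is bounded below miss a ball
round `-2`. -/
theorem miss (r : ℝ) (hr : 0 < r) : ∃ τ : ℝ, 0 < τ ∧ ∀ (p : ℂ) (ρ : ℝ),
    r ≤ ‖p‖ + ρ → Metric.ball (-2 + p) ρ ⊆ Man →
    ∀ x ∈ Metric.ball (-2 + p) ρ, τ ≤ ‖x + 2‖ := by
  obtain ⟨s, hs, h⟩ := disc_thin 2 (by norm_num)
  refine ⟨min s (r / 4), by positivity, fun p ρ hsz hsub x hx => ?_⟩
  by_contra hlt
  push Not at hlt
  set τ := min s (r / 4) with hτ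
  have hτ0 : 0 < τ := by positivity
  have hτs : τ ≤ s := min_le_left _ _
  have hτr : τ ≤ r / 4 := min_le_right _ _
  rw [Metric.mem_ball, dist_eq_norm] at hx
  set u : ℂ := -2 + p - x with hu
  have hun : ‖u‖ < ρ := by
    rw [hu, norm_sub_rev]; exact hx
  have hp : ‖p‖ ≤ ‖u‖ + ‖x + 2‖ := by
    have e : p = u + (x + 2) := by rw [hu]; ring
    calc ‖p‖ = ‖u + (x + 2)‖ := by rw [← e]
      _ ≤ _ := norm_add_le _ _
  have hρ : τ ≤ ρ := by linarith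
  have hρ0 : 0 < ρ := by linarith
  have hl0 : 0 ≤ τ / ρ := by positivity
  have hl1 : τ / ρ ≤ 1 := by rw [div_le_one hρ0]; exact hρ
  have hlρ : τ / ρ * ρ = τ := by field_simp
  have n1 : ‖((τ / ρ : ℝ) : ℂ) * u‖ ≤ τ := by
    rw [norm_mul, Complex.norm_real, Real.norm_of_nonneg hl0]
    nlinarith
  have n2 : ‖((1 - τ / ρ : ℝ) : ℂ) * u‖ ≤ ρ - τ := by
    rw [norm_mul, Complex.norm_real, Real.norm_of_nonneg (by linarith)]
    nlinarith
  apply h (x + 2 + ((τ / ρ : ℝ) : ℂ) * u) τ hτ0 hτs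
  · have := norm_add_le (x + 2) (((τ / ρ : ℝ) : ℂ) * u)
    linarith
  · refine Set.Subset.trans (Metric.ball_subset_ball' ?_) hsub
    rw [dist_eq_norm]
    have e : -2 + (x + 2 + ((τ / ρ : ℝ) : ℂ) * u) - (-2 + p)
        = -(((1 - τ / ρ : ℝ) : ℂ) * u) := by
      rw [hu]; push_cast; ring
    rw [e, norm_neg]
    linarith

end Pool.Agent.Lib.MA71
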